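import Pool.Agent.H297.FT.Knotoid

/-!
# The set of the knotoids with trivial normalised bracket in families with several full twists

`Pool.Agent.H891R2.Jones.Diagram` (starting library) contains the definitions `Diagram P` (oriented
diagrams, planar or not; `Diagram.loops`, the number of components of a state, counts circles and
intervals), `Diagram.fPoly` (the normalised bracket `(-A^{-3})^{w(D)} ⟨D⟩`) and `Outer m` (the part
of an oriented diagram outside a box through which `m` strands run).  `IsKnotoid D` (starting
library `Pool.Agent.H832R3.TW.E`): the pieces of `D` form one oriented interval, running from a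
marked point `tail` to a different marked point `head`, and (possibly) oriented closed curves.
`Pool.Agent.H297.FT.Defs` adds: `Boxes m k` (`k` boxes, the box `e` on the consecutive strands
`off e, …, off e + size e - 1`; they may overlap), `family O B a` for `a ∈ ℤ^k` (the diagram
with `a e` full twists on the `size e` strands of the box `e`, one box above the other), `lk`
(the number of the strands of a box directed upwards minus the number of those directed downwards),
the linear forms `wt` on `ℤ^k`, `w_s(a) = ∑ e, (s_e (s_e + 2) - 3 ℓ_e²) a_e` for
`s_e ∈ {n_e, n_e - 2, …} , s_e ≥ 0`, and `w_∞ = 0`, and the subgroup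
`Lam E = {a | w_s(a) = w_t(a) for all (s, t) ∈ E}` of `ℤ^k`.
-/

set_option autoImplicit false

namespace Pool.Agent.Results.MP_79b4ff_gt.FullTwistKnotoidCosets

open Pool.Agent.H891R2.Jones Pool.Agent.H297.FT Pool.Agent.H832R3.TW

/-- Let `K(a)`, `a ∈ ℤ^k`, be the diagrams obtained from a diagram of a knotoid by putting `a_e`
full twists into `k` boxes, the box `e` on `n_e` strands with linking number `ℓ_e`.  Then all of
them are diagrams of knotoids, the set of all `a` with `f_{K(a)} = 1` is a finite union of
cosets of subgroups of the form `Λ(E) = {a | w_s(a) = w_t(a) for all (s, t) ∈ E}`, and hence it is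
finite or contains a line `b + ℤ v`, `v ≠ 0`. -/
theorem result {m k : ℕ} (hm : 0 < m) (O : Outer m) (hO : IsKnotoid O.close) (B : Boxes m k) :
    (∀ a : Fin k → ℤ, IsKnotoid (family O B a)) ∧
    (∃ F : Finset ((Fin k → ℤ) × Finset (Option (Ind B) × Option (Ind B))),
      {a | (family O B a).fPoly = 1} = ⋃ p ∈ F, {a | a - p.1 ∈ Lam O B p.2}) ∧
    ({a | (family O B a).fPoly = 1}.Finite ∨ ∃ b v : Fin k → ℤ, v ≠ 0 ∧
      ∀ t : ℤ, (family O B (b + t • v)).fPoly = 1) :=
  ⟨family_knotoid O hO B, structure_thm' hm O B, finite_or_line hm O B⟩

end Pool.Agent.Results.MP_79b4ff_gt.FullTwistKnotoidCosets
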