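import Pool.Agent.H297.FT.Knotoid

/-!
# Knotoids with trivial normalised bracket in families with several full twists

`Pool.Agent.H891R2.Jones.Diagram` (starting library) contains the definitions `Diagram P` (oriented
diagrams, planar or not; `Diagram.loops`, the number of components of a state, counts circles and
intervals), `Diagram.fPoly` (the normalised bracket `(-A^{-3})^{w(D)} ⟨D⟩`) and `Outer m` (the part
of an oriented diagram outside a box through which `m` strands run).  `IsKnotoid D` (starting
library `Pool.Agent.H832R3.TW.E`): the pieces of `D` form one oriented interval, running from a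
marked point `tail` to a different marked point `head`, and (possibly) oriented closed curves.
`Pool.Agent.H297.FT.Defs` adds: `Boxes m k` (`k` boxes, the box `e` on the consecutive strands
`off e, …, off e + size e - 1`; they may overlap), `family O B a` for `a ∈ ℤ^k` (the diagram
with `a e` full twists on the `size e` strands of the box `e`, one box above the other) and `lk`
(the number of the strands of a box directed upwards minus the number of those directed downwards),
`wt` (the linear forms `w_s(v) = ∑ e, (s_e (s_e + 2) - 3 ℓ_e²) v_e` with `s_e = n_e - 2 r_e ≥ 0`),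
`mNum v` (the number of the distinct nonzero values among the `w_s(v)`),
`Exceptional n l` (`3 l² + 1 = (s + 1)²` for some `0 ≤ s ≤ n`) and
`hNum n l` (`⌊n/2⌋` if `n, l` is exceptional, otherwise `⌊n/2⌋ + 1`).
-/

set_option autoImplicit false

namespace Pool.Agent.Results.MP_79b4ff_gt.FullTwistKnotoids

open Pool.Agent.H891R2.Jones Pool.Agent.H297.FT Pool.Agent.H832R3.TW

open Classical in
/-- Let `K(a)`, `a ∈ ℤ^k`, be the diagrams obtained from a diagram of a knotoid by putting `a_e`
full twists into `k` boxes, the box `e` on `n_e` strands with linking number `ℓ_e`.  Then all of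
them are diagrams of knotoids.

Line law: for every line `b + ℤ v` of `ℤ^k`, either `w_s(v) = 0` for some `s` and the normalised
bracket of `K(b + t v)` is `1` for all integers `t`, or it is `1` for at most `mNum v` integers `t`.

Zero-one law: either

* all boxes are exceptional and the normalised bracket of all `K(a)`, `a ∈ ℤ^k`, is `1`, or
* for all finite sets `A_1, …, A_k` of integers it is `1` for at most `∑ e, h_e ∏_{e' ≠ e} |A_{e'}|`
  of the `a ∈ A_1 × ⋯ × A_k`, where `h_e = ⌊n_e/2⌋ + 1`, or `h_e = ⌊n_e/2⌋` if the box `e` is
  exceptional. -/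
theorem result {m k : ℕ} (hm : 0 < m) (O : Outer m) (hO : IsKnotoid O.close) (B : Boxes m k) :
    (∀ a : Fin k → ℤ, IsKnotoid (family O B a)) ∧
    (∀ b v : Fin k → ℤ,
      ((∃ r : Ind B, wt O B (some r) v = 0) ∧ ∀ t : ℤ, (family O B (b + t • v)).fPoly = 1) ∨
      ({t : ℤ | (family O B (b + t • v)).fPoly = 1}.Finite ∧
        {t : ℤ | (family O B (b + t • v)).fPoly = 1}.ncard ≤ mNum O B v)) ∧
    (((∀ e, Exceptional (B.size e) (lk O (B.off e) (B.size e))) ∧
        ∀ a, (family O B a).fPoly = 1) ∨
      ∀ A : Fin k → Finset ℤ,
        ((Fintype.piFinset A).filter (fun a => (family O B a).fPoly = 1)).card ≤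
          ∑ e, hNum (B.size e) (lk O (B.off e) (B.size e)) *
            ∏ e' ∈ Finset.univ.erase e, (A e').card) := by
  refine ⟨family_knotoid O hO B, line_law hm O B, ?_⟩
  rcases count_thm hm O B with h | h
  · exact Or.inl h
  · right
    intro A
    refine h A _ ?_
    intro a ha
    rw [Finset.mem_filter, Fintype.mem_piFinset] at ha
    exact ⟨ha.2, ha.1⟩

end Pool.Agent.Results.MP_79b4ff_gt.FullTwistKnotoids
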